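import Mathlib

/-!
# Distinct-distance subsets of the grid `{1,…,m}^d`

For every `d ≥ 1` there is `c > 0` such that every grid `{1,…,m}^d` (which has `n = m^d` points)
contains a subset with no repeated distance of size at least `c * n^(1/(d+1))`.

Construction.  Let `s` be an odd prime, `s ≤ n^d`, `w = (1,n,…,n^(d-1))`, `K = |w|²` prime to `s`.
For `0 ≤ a ≤ (s-1)/2` choose `v_a ∈ [0, s n)^d` with `v_a ≡ a w (mod s)` and
`w·v_a ≡ a K + s a² (mod s²)`.  If `δ ≡ j w (mod s)` then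
`K |δ|² ≡ (w·δ)² (mod s²)`, so `|v_a - v_b|²` determines `±((a-b) K + s (a²-b²))` modulo `s²`,
hence the pair `{a,b}`.
-/

namespace Pool.Agent.Results.MP_060d7c_co.GridExponent

open Finset

/-- The grid `{1,…,m}^d` in Euclidean `d`-space. -/
def Grid (d m : ℕ) : Set (EuclideanSpace ℝ (Fin d)) :=
  {x | ∀ i, ∃ k : ℕ, 1 ≤ k ∧ k ≤ m ∧ x i = k}

/-- `S` has no repeated distance: distances of different (unordered) pairs of distinct points of
`S` are different. -/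
def NoRepeatedDistance {d : ℕ} (S : Finset (EuclideanSpace ℝ (Fin d))) : Prop :=
  ∀ p ∈ S, ∀ q ∈ S, ∀ r ∈ S, ∀ t ∈ S, p ≠ q → r ≠ t → dist p q = dist r t →
    (p = r ∧ q = t) ∨ (p = t ∧ q = r)

/-! ### The basic vectors -/

lemma exists_digits (d n c : ℕ) (hc : c < n ^ d) :
    ∃ u : Fin d → ℕ, (∀ i, u i < n) ∧ ∑ i, u i * n ^ (i : ℕ) = c := by
  refine ⟨fun i => (finFunctionFinEquiv.symm ⟨c, hc⟩ i : Fin n), fun i => Fin.is_lt _, ?_⟩
  have h := finFunctionFinEquiv_apply (finFunctionFinEquiv.symm (⟨c, hc⟩ : Fin (n ^ d)))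
  rw [Equiv.apply_symm_apply] at h
  exact h.symm

lemma exists_vec (d n s a : ℕ) (hs : 0 < s) (hsn : s ≤ n ^ d) :
    ∃ v : Fin d → ℤ, (∀ i, 0 ≤ v i ∧ v i < s * n) ∧
      (∀ i, (s : ℤ) ∣ v i - a * (n : ℤ) ^ (i : ℕ)) ∧
      (s : ℤ) ^ 2 ∣ (∑ i : Fin d, (n : ℤ) ^ (i : ℕ) * v i) -
        (a * ∑ i : Fin d, ((n : ℤ) ^ (i : ℕ)) ^ 2 + s * (a : ℤ) ^ 2) := by
  have hs' : (0 : ℤ) < s := by exact_mod_cast hs
  have h1 : (s : ℤ) ∣ (∑ i : Fin d, (n : ℤ) ^ (i : ℕ) * ((a * (n : ℤ) ^ (i : ℕ)) % s)) -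
      a * ∑ i : Fin d, ((n : ℤ) ^ (i : ℕ)) ^ 2 := by
    rw [mul_sum, ← sum_sub_distrib]
    apply dvd_sum
    intro i _
    have h := Int.emod_add_mul_ediv (a * (n : ℤ) ^ (i : ℕ)) s
    refine ⟨- ((n : ℤ) ^ (i : ℕ) * ((a * (n : ℤ) ^ (i : ℕ)) / s)), ?_⟩
    have h' : (a * (n : ℤ) ^ (i : ℕ)) % s = a * (n : ℤ) ^ (i : ℕ) - s * ((a * (n : ℤ) ^ (i : ℕ)) / s) := by
      linarith
    rw [h']
    ring
  obtain ⟨t, ht⟩ := h1
  set c : ℤ := ((a : ℤ) ^ 2 - t) % s with hc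
  have hc0 : 0 ≤ c := Int.emod_nonneg _ hs'.ne'
  have hc1 : c < s := Int.emod_lt_of_pos _ hs'
  obtain ⟨u, hu, hus⟩ := exists_digits d n c.toNat (by omega)
  have hus' : ∑ i : Fin d, (n : ℤ) ^ (i : ℕ) * (u i : ℤ) = c := by
    have : ((∑ i, u i * n ^ (i : ℕ) : ℕ) : ℤ) = (c.toNat : ℤ) := by rw [hus]
    rw [Int.toNat_of_nonneg hc0] at this
    push_cast at this
    rw [← this]
    exact sum_congr rfl fun i _ => mul_comm _ _
  refine ⟨fun i => (a * (n : ℤ) ^ (i : ℕ)) % s + s * u i, fun i => ?_, fun i => ?_, ?_⟩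
  · have e0 := Int.emod_nonneg (a * (n : ℤ) ^ (i : ℕ)) hs'.ne'
    have e1 := Int.emod_lt_of_pos (a * (n : ℤ) ^ (i : ℕ)) hs'
    have e2 : (u i : ℤ) + 1 ≤ n := by exact_mod_cast hu i
    have e3 : (0 : ℤ) ≤ u i := by positivity
    constructor
    · positivity
    · nlinarith
  · have h := Int.emod_add_mul_ediv (a * (n : ℤ) ^ (i : ℕ)) s
    exact ⟨(u i : ℤ) - (a * (n : ℤ) ^ (i : ℕ)) / s, by
      have h' : (a * (n : ℤ) ^ (i : ℕ)) % s
        = a * (n : ℤ) ^ (i : ℕ) - s * ((a * (n : ℤ) ^ (i : ℕ)) / s) := by linarith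
      simp only [h']; ring⟩
  · have h := Int.emod_add_mul_ediv ((a : ℤ) ^ 2 - t) s
    rw [← hc] at h
    have h2 : ∑ i : Fin d, (n : ℤ) ^ (i : ℕ) * ((a * (n : ℤ) ^ (i : ℕ)) % s + s * u i)
        = ∑ i : Fin d, (n : ℤ) ^ (i : ℕ) * ((a * (n : ℤ) ^ (i : ℕ)) % s) + s * c := by
      rw [← hus', mul_sum, ← sum_add_distrib]
      exact sum_congr rfl fun i _ => by ring
    rw [h2]
    refine ⟨- (((a : ℤ) ^ 2 - t) / s), ?_⟩
    have h3 : ∑ i : Fin d, (n : ℤ) ^ (i : ℕ) * ((a * (n : ℤ) ^ (i : ℕ)) % s)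
      = a * ∑ i : Fin d, ((n : ℤ) ^ (i : ℕ)) ^ 2 + s * t := by linarith
    rw [h3]
    have h4 : c = (a : ℤ) ^ 2 - t - s * (((a : ℤ) ^ 2 - t) / s) := by linarith
    rw [h4]
    ring

/-- Lagrange-type congruence. -/
lemma key_congr {d : ℕ} (w δ : Fin d → ℤ) (s j : ℤ) (h : ∀ i, s ∣ δ i - j * w i) :
    s ^ 2 ∣ (∑ i, w i ^ 2) * (∑ i, δ i ^ 2) - (∑ i, w i * δ i) ^ 2 := by
  choose e he using h
  have h1 : ∀ i, δ i = j * w i + s * e i := fun i => by linarith [he i]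
  have h2 : ∑ i, δ i ^ 2 = j ^ 2 * ∑ i, w i ^ 2 + 2 * j * s * ∑ i, w i * e i
      + s ^ 2 * ∑ i, e i ^ 2 := by
    rw [mul_sum, mul_sum, mul_sum, ← sum_add_distrib, ← sum_add_distrib]
    exact sum_congr rfl fun i _ => by rw [h1 i]; ring
  have h3 : ∑ i, w i * δ i = j * ∑ i, w i ^ 2 + s * ∑ i, w i * e i := by
    rw [mul_sum, mul_sum, ← sum_add_distrib]
    exact sum_congr rfl fun i _ => by rw [h1 i]; ring
  refine ⟨(∑ i, e i ^ 2) * (∑ i, w i ^ 2) - (∑ i, w i * e i) ^ 2, ?_⟩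
  rw [h2, h3]
  ring

/-! ### The number theoretic decoding -/

lemma small_dvd {s x : ℤ} (h : s ∣ x) (h1 : -s < x) (h2 : x < s) : x = 0 := by
  rcases h with ⟨k, rfl⟩
  have hs : 0 < s := by linarith
  have hk : k < 1 := by
    by_contra hk
    push Not at hk
    nlinarith
  have hk' : -1 < k := by
    by_contra hk
    push Not at hk
    nlinarith
  have : k = 0 := by omega
  simp [this]

lemma decode_one {s : ℕ} (hp : s.Prime) {K a b c e : ℤ} (hK : ¬ (s : ℤ) ∣ K)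
    (ha : 0 ≤ a) (hb : 0 ≤ b) (hc : 0 ≤ c) (he : 0 ≤ e)
    (ha' : 2 * a < s) (hb' : 2 * b < s) (hc' : 2 * c < s) (he' : 2 * e < s) (hab : a ≠ b)
    (h : (s : ℤ) ^ 2 ∣ ((a - b) * K + s * (a ^ 2 - b ^ 2)) - ((c - e) * K + s * (c ^ 2 - e ^ 2))) :
    a = c ∧ b = e := by
  have hpz : Prime (s : ℤ) := Nat.prime_iff_prime_int.mp hp
  have hs0 : (0 : ℤ) < s := by exact_mod_cast hp.pos
  have h1 : (s : ℤ) ∣ ((a - b) - (c - e)) * K := by
    have h2 : (s : ℤ) ∣ (s : ℤ) ^ 2 := ⟨s, by ring⟩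
    have h3 := dvd_trans h2 h
    have h4 : ((a - b) - (c - e)) * K =
      (((a - b) * K + s * (a ^ 2 - b ^ 2)) - ((c - e) * K + s * (c ^ 2 - e ^ 2)))
        - s * ((a ^ 2 - b ^ 2) - (c ^ 2 - e ^ 2)) := by ring
    rw [h4]
    exact dvd_sub h3 (dvd_mul_right _ _)
  have h5 : (s : ℤ) ∣ (a - b) - (c - e) := (hpz.dvd_or_dvd h1).resolve_right hK
  have h6 : (a - b) - (c - e) = 0 := small_dvd h5 (by linarith) (by linarith)
  have h7 : c - e = a - b := by linarith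
  rw [h7] at h
  have h8 : (s : ℤ) ^ 2 ∣ s * ((a - b) * ((a + b) - (c + e))) := by
    have : ((a - b) * K + s * (a ^ 2 - b ^ 2)) - ((a - b) * K + s * (c ^ 2 - e ^ 2))
      = s * ((a - b) * ((a + b) - (c + e))) := by
      have h9 : c ^ 2 - e ^ 2 = (a - b) * (c + e) := by rw [← h7]; ring
      rw [h9]; ring
    rwa [this] at h
  have h10 : (s : ℤ) ∣ (a - b) * ((a + b) - (c + e)) := by
    rw [pow_two] at h8
    exact (mul_dvd_mul_iff_left hs0.ne').mp h8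
  rcases hpz.dvd_or_dvd h10 with h11 | h11
  · exact absurd (by linarith [small_dvd h11 (by linarith) (by linarith)]) hab
  · have h12 := small_dvd h11 (by linarith) (by linarith)
    constructor <;> linarith

lemma decode {s : ℕ} (hp : s.Prime) (hodd : s ≠ 2) {K a b c e : ℤ} (hK : ¬ (s : ℤ) ∣ K)
    (ha : 0 ≤ a) (hb : 0 ≤ b) (hc : 0 ≤ c) (he : 0 ≤ e)
    (ha' : 2 * a < s) (hb' : 2 * b < s) (hc' : 2 * c < s) (he' : 2 * e < s) (hab : a ≠ b)
    {X Y : ℤ} (hX : (s : ℤ) ^ 2 ∣ X - ((a - b) * K + s * (a ^ 2 - b ^ 2)))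
    (hY : (s : ℤ) ^ 2 ∣ Y - ((c - e) * K + s * (c ^ 2 - e ^ 2)))
    (hXY : (s : ℤ) ^ 2 ∣ X ^ 2 - Y ^ 2) :
    (a = c ∧ b = e) ∨ (a = e ∧ b = c) := by
  have hpz : Prime (s : ℤ) := Nat.prime_iff_prime_int.mp hp
  have hs0 : (0 : ℤ) < s := by exact_mod_cast hp.pos
  have hss : (s : ℤ) ∣ (s : ℤ) ^ 2 := ⟨s, by ring⟩
  -- `X` is a unit modulo `s`
  have hXu : ¬ (s : ℤ) ∣ X := by
    intro hd
    have h1 := dvd_sub hd (dvd_trans hss hX)
    have h2 : X - (X - ((a - b) * K + s * (a ^ 2 - b ^ 2)))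
      = (a - b) * K + s * (a ^ 2 - b ^ 2) := by ring
    rw [h2] at h1
    have h3 : (s : ℤ) ∣ (a - b) * K := by
      have := dvd_sub h1 (dvd_mul_right (s : ℤ) (a ^ 2 - b ^ 2))
      simpa using this
    rcases hpz.dvd_or_dvd h3 with h4 | h4
    · exact hab (by linarith [small_dvd h4 (by linarith) (by linarith)])
    · exact hK h4
  have hfac : (s : ℤ) ^ 2 ∣ (X - Y) * (X + Y) := by
    have : (X - Y) * (X + Y) = X ^ 2 - Y ^ 2 := by ring
    rwa [this]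
  have hnot : ¬ ((s : ℤ) ∣ X - Y ∧ (s : ℤ) ∣ X + Y) := by
    rintro ⟨h1, h2⟩
    have h3 : (s : ℤ) ∣ 2 * X := by
      have := dvd_add h1 h2
      have h4 : X - Y + (X + Y) = 2 * X := by ring
      rwa [h4] at this
    rcases hpz.dvd_or_dvd h3 with h4 | h4
    · have h5 : s ∣ 2 := by exact_mod_cast h4
      have h6 := (Nat.prime_dvd_prime_iff_eq hp Nat.prime_two).mp h5
      exact hodd h6
    · exact hXu h4
  by_cases hm : (s : ℤ) ∣ X + Y
  · have hm' : ¬ (s : ℤ) ∣ X - Y := fun h => hnot ⟨h, hm⟩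
    have hco : IsCoprime ((s : ℤ) ^ 2) (X - Y) :=
      ((Prime.coprime_iff_not_dvd hpz).mpr hm').pow_left
    have h1 : (s : ℤ) ^ 2 ∣ X + Y := hco.dvd_of_dvd_mul_left hfac
    right
    refine decode_one hp hK ha hb he hc ha' hb' he' hc' hab ?_
    have h2 : ((a - b) * K + s * (a ^ 2 - b ^ 2)) - ((e - c) * K + s * (e ^ 2 - c ^ 2))
      = (X + Y) - (X - ((a - b) * K + s * (a ^ 2 - b ^ 2)))
        - (Y - ((c - e) * K + s * (c ^ 2 - e ^ 2))) := by ring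
    rw [h2]
    exact dvd_sub (dvd_sub h1 hX) hY
  · have hco : IsCoprime ((s : ℤ) ^ 2) (X + Y) :=
      ((Prime.coprime_iff_not_dvd hpz).mpr hm).pow_left
    have h1 : (s : ℤ) ^ 2 ∣ X - Y := hco.dvd_of_dvd_mul_right hfac
    left
    refine decode_one hp hK ha hb hc he ha' hb' hc' he' hab ?_
    have h2 : ((a - b) * K + s * (a ^ 2 - b ^ 2)) - ((c - e) * K + s * (c ^ 2 - e ^ 2))
      = (X - Y) - (X - ((a - b) * K + s * (a ^ 2 - b ^ 2)))
        + (Y - ((c - e) * K + s * (c ^ 2 - e ^ 2))) := by ring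
    rw [h2]
    exact dvd_add (dvd_sub h1 hX) hY

/-- Core statement over the integers. -/
lemma core (d n s : ℕ) (hp : s.Prime) (hodd : s ≠ 2) (hsn : s ≤ n ^ d)
    (hK : ¬ (s : ℤ) ∣ ∑ i : Fin d, ((n : ℤ) ^ (i : ℕ)) ^ 2) :
    ∃ v : ℕ → Fin d → ℤ, (∀ a i, 0 ≤ v a i ∧ v a i < s * n) ∧
      ∀ a b c e : ℕ, 2 * a < s → 2 * b < s → 2 * c < s → 2 * e < s → a ≠ b →
        ∑ i, (v a i - v b i) ^ 2 = ∑ i, (v c i - v e i) ^ 2 →
        (a = c ∧ b = e) ∨ (a = e ∧ b = c) := by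
  choose v hv1 hv2 hv3 using fun a => exists_vec d n s a hp.pos hsn
  refine ⟨v, hv1, ?_⟩
  intro a b c e ha hb hc he hab hD
  set K : ℤ := ∑ i : Fin d, ((n : ℤ) ^ (i : ℕ)) ^ 2 with hKdef
  have hdiff : ∀ a b : ℕ, (s : ℤ) ^ 2 ∣ K * (∑ i, (v a i - v b i) ^ 2)
      - (∑ i : Fin d, (n : ℤ) ^ (i : ℕ) * (v a i - v b i)) ^ 2 := by
    intro a b
    refine key_congr (fun i => (n : ℤ) ^ (i : ℕ)) (fun i => v a i - v b i) s (a - b) ?_
    intro i
    have h1 := hv2 a i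
    have h2 := hv2 b i
    have h3 : v a i - v b i - ((a : ℤ) - b) * (n : ℤ) ^ (i : ℕ)
      = (v a i - a * (n : ℤ) ^ (i : ℕ)) - (v b i - b * (n : ℤ) ^ (i : ℕ)) := by ring
    rw [h3]
    exact dvd_sub h1 h2
  have hlin : ∀ a b : ℕ, (s : ℤ) ^ 2 ∣ (∑ i : Fin d, (n : ℤ) ^ (i : ℕ) * (v a i - v b i))
      - (((a : ℤ) - b) * K + s * ((a : ℤ) ^ 2 - (b : ℤ) ^ 2)) := by
    intro a b
    have h1 := hv3 a
    have h2 := hv3 b
    have h3 : (∑ i : Fin d, (n : ℤ) ^ (i : ℕ) * (v a i - v b i))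
      - (((a : ℤ) - b) * K + s * ((a : ℤ) ^ 2 - (b : ℤ) ^ 2))
      = (∑ i : Fin d, (n : ℤ) ^ (i : ℕ) * v a i - (a * K + s * (a : ℤ) ^ 2))
        - (∑ i : Fin d, (n : ℤ) ^ (i : ℕ) * v b i - (b * K + s * (b : ℤ) ^ 2)) := by
      have : ∑ i : Fin d, (n : ℤ) ^ (i : ℕ) * (v a i - v b i)
        = ∑ i : Fin d, (n : ℤ) ^ (i : ℕ) * v a i - ∑ i : Fin d, (n : ℤ) ^ (i : ℕ) * v b i := by
        rw [← sum_sub_distrib]
        exact sum_congr rfl fun i _ => by ring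
      rw [this]; ring
    rw [h3]
    exact dvd_sub h1 h2
  have hsq : (s : ℤ) ^ 2 ∣ (∑ i : Fin d, (n : ℤ) ^ (i : ℕ) * (v a i - v b i)) ^ 2
      - (∑ i : Fin d, (n : ℤ) ^ (i : ℕ) * (v c i - v e i)) ^ 2 := by
    have h1 := hdiff a b
    have h2 := hdiff c e
    rw [hD] at h1
    have h3 := dvd_sub h2 h1
    have h4 : (K * (∑ i, (v c i - v e i) ^ 2)
      - (∑ i : Fin d, (n : ℤ) ^ (i : ℕ) * (v c i - v e i)) ^ 2)
      - (K * (∑ i, (v c i - v e i) ^ 2)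
      - (∑ i : Fin d, (n : ℤ) ^ (i : ℕ) * (v a i - v b i)) ^ 2)
      = (∑ i : Fin d, (n : ℤ) ^ (i : ℕ) * (v a i - v b i)) ^ 2
      - (∑ i : Fin d, (n : ℤ) ^ (i : ℕ) * (v c i - v e i)) ^ 2 := by ring
    rwa [h4] at h3
  have hfin := decode hp hodd hK (a := a) (b := b) (c := c) (e := e)
    (by positivity) (by positivity) (by positivity) (by positivity)
    (by exact_mod_cast ha) (by exact_mod_cast hb) (by exact_mod_cast hc) (by exact_mod_cast he)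
    (by exact_mod_cast hab) (hlin a b) (hlin c e) hsq
  exact_mod_cast hfin

/-! ### Choice of the prime -/

lemma exists_good_prime (d n : ℕ) (hd : 1 ≤ d) (hn : 16 ≤ n) :
    ∃ s : ℕ, s.Prime ∧ s ≠ 2 ∧ s ≤ n ^ d ∧ n ^ d < 4 * s ∧
      ¬ (s : ℤ) ∣ ∑ i : Fin d, ((n : ℤ) ^ (i : ℕ)) ^ 2 := by
  set M := n ^ d with hM
  have hM16 : 16 ≤ M := by
    calc 16 ≤ n := hn
      _ = n ^ 1 := (pow_one n).symm
      _ ≤ n ^ d := Nat.pow_le_pow_right (by omega) hd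
  set q := M / 4 with hq
  have hq4 : 4 ≤ q := by omega
  obtain ⟨p1, hp1, hp1a, hp1b⟩ := Nat.exists_prime_lt_and_le_two_mul q (by omega)
  obtain ⟨p2, hp2, hp2a, hp2b⟩ := Nat.exists_prime_lt_and_le_two_mul (2 * q) (by omega)
  set K : ℕ := ∑ i : Fin d, (n ^ (i : ℕ)) ^ 2 with hKdef
  have hKpos : 0 < K := by
    have : (n ^ ((⟨0, by omega⟩ : Fin d) : ℕ)) ^ 2 ≤ K :=
      single_le_sum (f := fun i : Fin d => (n ^ (i : ℕ)) ^ 2) (fun i _ => Nat.zero_le _)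
        (mem_univ _)
    simp at this
    omega
  have hgeo : K * (n ^ 2 - 1) + 1 = M ^ 2 := by
    have h1 : K = ∑ i ∈ range d, (n ^ 2) ^ i := by
      rw [hKdef, Fin.sum_univ_eq_sum_range (fun i => (n ^ i) ^ 2) d]
      exact sum_congr rfl fun i _ => by rw [← pow_mul, ← pow_mul, mul_comm]
    have h2 := Nat.geomSum_eq (m := n ^ 2) (by nlinarith) d
    have h3 : (n ^ 2 - 1) ∣ (n ^ 2) ^ d - 1 := by
      simpa using Nat.sub_dvd_pow_sub_pow (n ^ 2) 1 d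
    rw [h1, h2, Nat.div_mul_cancel h3, hM, ← pow_mul, ← pow_mul, mul_comm d 2]
    have : 1 ≤ n ^ (2 * d) := Nat.one_le_pow _ _ (by omega)
    omega
  have hcast : ((K : ℕ) : ℤ) = ∑ i : Fin d, ((n : ℤ) ^ (i : ℕ)) ^ 2 := by
    rw [hKdef]; push_cast; rfl
  have hnot : ¬ (p1 ∣ K ∧ p2 ∣ K) := by
    rintro ⟨h1, h2⟩
    have hne : p1 ≠ p2 := by omega
    have hco : Nat.Coprime p1 p2 := (Nat.coprime_primes hp1 hp2).mpr hne
    have h3 : p1 * p2 ∣ K := Nat.Coprime.mul_dvd_of_dvd_of_dvd hco h1 h2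
    have h4 := Nat.le_of_dvd hKpos h3
    have h5 : (M + 1) * (M - 1) ≤ 8 * (p1 * p2) := by
      have e1 : M + 1 ≤ 4 * p1 := by omega
      have e2 : M - 1 ≤ 2 * p2 := by omega
      calc (M + 1) * (M - 1) ≤ (4 * p1) * (2 * p2) := Nat.mul_le_mul e1 e2
        _ = 8 * (p1 * p2) := by ring
    have h6 : (M + 1) * (M - 1) + 1 = M ^ 2 := by
      have aux : ∀ M' : ℕ, (M' + 1 + 1) * (M' + 1 - 1) + 1 = (M' + 1) ^ 2 := by
        intro M'
        simp only [Nat.add_sub_cancel]; ring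
      have h := aux (M - 1)
      have h' : M - 1 + 1 = M := by omega
      rwa [h'] at h
    have h7 : K * 255 ≤ K * (n ^ 2 - 1) := by
      apply Nat.mul_le_mul_left
      have : 256 ≤ n ^ 2 := by nlinarith
      omega
    have h8 : 0 < K := hKpos
    omega
  by_cases h1 : p1 ∣ K
  · refine ⟨p2, hp2, by omega, by omega, by omega, ?_⟩
    rw [← hcast]
    intro h
    exact hnot ⟨h1, by exact_mod_cast h⟩
  · refine ⟨p1, hp1, by omega, by omega, by omega, ?_⟩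
    rw [← hcast]
    intro h
    exact h1 (by exact_mod_cast h)

/-! ### The final theorem -/

lemma exists_root (d m : ℕ) : ∃ n : ℕ, n ^ (d + 1) ≤ m ∧ m < (n + 1) ^ (d + 1) := by
  refine ⟨Nat.findGreatest (fun n => n ^ (d + 1) ≤ m) m, ?_, ?_⟩
  · exact Nat.findGreatest_spec (P := fun n => n ^ (d + 1) ≤ m) (m := 0) (Nat.zero_le _)
      (by simp)
  · by_contra h
    push Not at h
    have h2 : Nat.findGreatest (fun n => n ^ (d + 1) ≤ m) m + 1 ≤ m :=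
      le_trans (Nat.le_self_pow (by omega) _) h
    have h3 := Nat.le_findGreatest (P := fun n => n ^ (d + 1) ≤ m) h2 h
    omega

/-- A finite set of lattice points with distinct distances, as a subset of the grid. -/
lemma transfer (d m : ℕ) (s n : ℕ) (hp : s.Prime) (hodd : s ≠ 2) (hsn : s ≤ n ^ d)
    (hm : s * n ≤ m)
    (hK : ¬ (s : ℤ) ∣ ∑ i : Fin d, ((n : ℤ) ^ (i : ℕ)) ^ 2) :
    ∃ S : Finset (EuclideanSpace ℝ (Fin d)), (S : Set (EuclideanSpace ℝ (Fin d))) ⊆ Grid d m ∧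
      NoRepeatedDistance S ∧ s ≤ 2 * S.card := by
  classical
  obtain ⟨v, hv1, hv2⟩ := core d n s hp hodd hsn hK
  set f : ℕ → EuclideanSpace ℝ (Fin d) := fun a => WithLp.toLp 2 (fun i => ((v a i + 1 : ℤ) : ℝ))
    with hf
  have hdist : ∀ a b : ℕ, dist (f a) (f b) ^ 2 = ((∑ i, (v a i - v b i) ^ 2 : ℤ) : ℝ) := by
    intro a b
    rw [EuclideanSpace.dist_eq, Real.sq_sqrt (by positivity)]
    push_cast
    refine sum_congr rfl fun i _ => ?_
    rw [Real.dist_eq, sq_abs]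
    simp [hf]
  have hinj : ∀ a b c e : ℕ, 2 * a < s → 2 * b < s → 2 * c < s → 2 * e < s → a ≠ b →
      dist (f a) (f b) = dist (f c) (f e) → (a = c ∧ b = e) ∨ (a = e ∧ b = c) := by
    intro a b c e ha hb hc he hab h
    apply hv2 a b c e ha hb hc he hab
    have h1 : dist (f a) (f b) ^ 2 = dist (f c) (f e) ^ 2 := by rw [h]
    rw [hdist, hdist] at h1
    exact_mod_cast h1
  set I : Finset ℕ := (range s).filter (fun a => 2 * a < s) with hI
  have hmemI : ∀ a, a ∈ I ↔ 2 * a < s := by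
    intro a
    simp only [hI, mem_filter, mem_range]
    constructor
    · exact fun h => h.2
    · intro h; exact ⟨by omega, h⟩
  have hfinj : Set.InjOn f I := by
    intro a ha b hb hab
    rw [mem_coe, hmemI] at ha hb
    by_contra hne
    have h0 : dist (f a) (f b) = dist (f a) (f a) := by rw [hab]
    rcases hinj a b a a ha hb ha ha hne h0 with h | h
    · exact hne h.2.symm
    · exact hne h.2.symm
  refine ⟨I.image f, ?_, ?_, ?_⟩
  · intro x hx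
    rw [mem_coe, mem_image] at hx
    obtain ⟨a, _, rfl⟩ := hx
    intro i
    have h1 := hv1 a i
    refine ⟨(v a i).toNat + 1, by omega, ?_, ?_⟩
    · have : (v a i).toNat < s * n := by
        zify
        rw [Int.toNat_of_nonneg h1.1]
        exact_mod_cast h1.2
      omega
    · have h2 : (((v a i).toNat + 1 : ℕ) : ℤ) = v a i + 1 := by
        push_cast
        rw [Int.toNat_of_nonneg h1.1]
      have h3 : (f a) i = ((v a i + 1 : ℤ) : ℝ) := rfl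
      rw [h3, ← h2]
      push_cast
      rfl
  · intro p hp' q hq r hr t ht hpq _ h
    rw [mem_image] at hp' hq hr ht
    obtain ⟨a, ha, rfl⟩ := hp'
    obtain ⟨b, hb, rfl⟩ := hq
    obtain ⟨c, hc, rfl⟩ := hr
    obtain ⟨e, he, rfl⟩ := ht
    rw [hmemI] at ha hb hc he
    have hab : a ≠ b := fun h => hpq (by rw [h])
    rcases hinj a b c e ha hb hc he hab h with h | h
    · left; exact ⟨by rw [h.1], by rw [h.2]⟩
    · right; exact ⟨by rw [h.1], by rw [h.2]⟩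
  · rw [card_image_of_injOn hfinj]
    have h1 : range ((s + 1) / 2) ⊆ I := by
      intro a ha
      rw [mem_range] at ha
      rw [hmemI]; omega
    have h2 := card_le_card h1
    rw [card_range] at h2
    omega

/-- **Main theorem.** For every `d ≥ 1` and every `m ≥ 1`, with `n = m^d` the number of points of
the grid `{1,…,m}^d`, this grid has a subset with no repeated distance and with at least
`17^(-d) * n^(1/(d+1))` points. -/
theorem result : ∀ d : ℕ, 1 ≤ d → ∀ m : ℕ, 1 ≤ m →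
    ∃ S : Finset (EuclideanSpace ℝ (Fin d)), (S : Set (EuclideanSpace ℝ (Fin d))) ⊆ Grid d m ∧
      NoRepeatedDistance S ∧
      (1 / 17 ^ d : ℝ) * ((m ^ d : ℕ) : ℝ) ^ (1 / ((d : ℝ) + 1)) ≤ S.card := by
  intro d hd m hm
  obtain ⟨n, hn1, hn2⟩ := exists_root d m
  have hroot : ((m ^ d : ℕ) : ℝ) ^ (1 / ((d : ℝ) + 1)) ≤ ((n : ℝ) + 1) ^ d := by
    have h1 : ((m ^ d : ℕ) : ℝ) ≤ (((n : ℝ) + 1) ^ d) ^ (d + 1) := by
      have h2 : m ^ d ≤ ((n + 1) ^ (d + 1)) ^ d := Nat.pow_le_pow_left hn2.le d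
      have h3 : ((n + 1) ^ (d + 1)) ^ d = ((n + 1) ^ d) ^ (d + 1) := by
        rw [← pow_mul, ← pow_mul, mul_comm]
      rw [h3] at h2
      exact_mod_cast h2
    have hpos : (0 : ℝ) ≤ ((n : ℝ) + 1) ^ d := by positivity
    calc ((m ^ d : ℕ) : ℝ) ^ (1 / ((d : ℝ) + 1))
        ≤ ((((n : ℝ) + 1) ^ d) ^ (d + 1)) ^ (1 / ((d : ℝ) + 1)) :=
          Real.rpow_le_rpow (by positivity) h1 (by positivity)
      _ = ((n : ℝ) + 1) ^ d := by
          have h4 : (1 / ((d : ℝ) + 1)) = (((d + 1 : ℕ) : ℝ))⁻¹ := by push_cast; rw [one_div]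
          rw [h4]
          exact Real.pow_rpow_inv_natCast hpos (by omega)
  by_cases hn : 16 ≤ n
  · obtain ⟨s, hs, hs2, hsn, hs4, hK⟩ := exists_good_prime d n hd hn
    have hsm : s * n ≤ m := by
      calc s * n ≤ n ^ d * n := Nat.mul_le_mul_right _ hsn
        _ = n ^ (d + 1) := by ring
        _ ≤ m := hn1
    obtain ⟨S, hS1, hS2, hS3⟩ := transfer d m s n hs hs2 hsn hsm hK
    refine ⟨S, hS1, hS2, ?_⟩
    have h5 : (n : ℝ) ^ d ≤ 8 * S.card := by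
      have : n ^ d ≤ 8 * S.card := by omega
      exact_mod_cast this
    have h6 : ((n : ℝ) + 1) ^ d ≤ (17 / 16 * n) ^ d := by
      apply pow_le_pow_left₀ (by positivity)
      have : (16 : ℝ) ≤ n := by exact_mod_cast hn
      linarith
    have h7 : (1 / 17 ^ d : ℝ) * (17 / 16 * n) ^ d = (1 / 16 ^ d) * (n : ℝ) ^ d := by
      rw [mul_pow, div_pow]
      field_simp
    have h8 : (1 / 16 ^ d : ℝ) ≤ 1 / 16 := by
      apply one_div_le_one_div_of_le (by norm_num)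
      calc (16 : ℝ) = 16 ^ 1 := by norm_num
        _ ≤ 16 ^ d := pow_le_pow_right₀ (by norm_num) hd
    calc (1 / 17 ^ d : ℝ) * ((m ^ d : ℕ) : ℝ) ^ (1 / ((d : ℝ) + 1))
        ≤ (1 / 17 ^ d : ℝ) * (17 / 16 * n) ^ d := by
          apply mul_le_mul_of_nonneg_left (le_trans hroot h6) (by positivity)
      _ = (1 / 16 ^ d) * (n : ℝ) ^ d := h7
      _ ≤ (1 / 16) * (8 * S.card) := by
          apply mul_le_mul h8 h5 (by positivity) (by norm_num)
      _ ≤ S.card := by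
          have : (0 : ℝ) ≤ S.card := by positivity
          linarith
  · push Not at hn
    refine ⟨{WithLp.toLp 2 (fun _ => (1 : ℝ))}, ?_, ?_, ?_⟩
    · intro x hx
      rw [coe_singleton, Set.mem_singleton_iff] at hx
      subst hx
      intro i
      exact ⟨1, le_refl _, hm, by simp⟩
    · intro p hp q hq r hr t ht hpq
      rw [mem_singleton] at hp hq
      exact absurd (hp.trans hq.symm) hpq
    · rw [card_singleton]
      have h1 : ((n : ℝ) + 1) ^ d ≤ 17 ^ d := by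
        apply pow_le_pow_left₀ (by positivity)
        have : (n : ℝ) ≤ 16 := by exact_mod_cast hn.le
        linarith
      calc (1 / 17 ^ d : ℝ) * ((m ^ d : ℕ) : ℝ) ^ (1 / ((d : ℝ) + 1))
          ≤ (1 / 17 ^ d : ℝ) * 17 ^ d := by
            apply mul_le_mul_of_nonneg_left (le_trans hroot h1) (by positivity)
        _ = 1 := by field_simp
        _ = ((1 : ℕ) : ℝ) := by norm_num

end Pool.Agent.Results.MP_060d7c_co.GridExponent
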